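import Pool.Agent.Work.MP_46fa68_h56.LiftDefs
import Mathlib.Topology.MetricSpace.Contracting

set_option autoImplicit false

open Finset

namespace Pool.JM

namespace FIXAux

theorem Up_lin (a b : ℝ) (f g : Finset ℕ → ℝ) :
    Up (fun C => a * f C + b * g C) = fun C => a * Up f C + b * Up g C := by
  funext C
  unfold Up Fo
  rw [mul_sum, mul_sum, ← sum_add_distrib]
  exact sum_congr rfl fun x _ => by ring

theorem Upi_lin (a b : ℝ) (k : ℕ) (f g : Finset ℕ → ℝ) :
    Up^[k] (fun C => a * f C + b * g C) = fun C => a * Up^[k] f C + b * Up^[k] g C := by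
  induction k with
  | zero => rfl
  | succ k ih => rw [Function.iterate_succ_apply', ih, Up_lin, Function.iterate_succ_apply',
      Function.iterate_succ_apply']

theorem Dl_lin (a b : ℝ) (f g : Finset ℕ → ℝ) :
    Dl (fun C => a * f C + b * g C) = fun C => a * Dl f C + b * Dl g C := by
  funext C
  unfold Dl
  rw [mul_sum, mul_sum, ← sum_add_distrib]

theorem Dli_lin (a b : ℝ) (k : ℕ) (f g : Finset ℕ → ℝ) :
    Dl^[k] (fun C => a * f C + b * g C) = fun C => a * Dl^[k] f C + b * Dl^[k] g C := by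
  induction k with
  | zero => rfl
  | succ k ih => rw [Function.iterate_succ_apply', ih, Dl_lin, Function.iterate_succ_apply',
      Function.iterate_succ_apply']

theorem z0_lin (a b : ℝ) (M t : ℕ) (E F : ℕ → Finset ℕ → ℝ) :
    z0 M t (fun i C => a * E i C + b * F i C) = a * z0 M t E + b * z0 M t F := by
  unfold z0
  rw [mul_sum, mul_sum, ← sum_add_distrib]
  refine sum_congr rfl fun j _ => ?_
  rw [Dli_lin a b j (E j) (F j)]
  ring

theorem YL_lin (a b : ℝ) (M t : ℕ) (E F : ℕ → Finset ℕ → ℝ) (l : ℕ) (C : Finset ℕ) :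
    YL M t (fun i C => a * E i C + b * F i C) l C = a * YL M t E l C + b * YL M t F l C := by
  unfold YL
  split_ifs with h
  · rfl
  · rw [z0_lin]
    have h1 : ∑ i ∈ range (t + 1), ((l - i - 1).choose (t - i) : ℝ) / ((l - i).factorial : ℝ) *
        Up^[l - i] (fun C => a * E i C + b * F i C) C =
        a * (∑ i ∈ range (t + 1), ((l - i - 1).choose (t - i) : ℝ) / ((l - i).factorial : ℝ) *
          Up^[l - i] (E i) C) +
        b * (∑ i ∈ range (t + 1), ((l - i - 1).choose (t - i) : ℝ) / ((l - i).factorial : ℝ) *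
          Up^[l - i] (F i) C) := by
      rw [mul_sum, mul_sum, ← sum_add_distrib]
      refine sum_congr rfl fun i _ => ?_
      rw [Upi_lin a b (l - i) (E i) (F i)]
      ring
    rw [h1]
    ring

theorem YP_smul (d : ℝ) (M t : ℕ) (W : ℕ → Finset ℕ → ℝ) (l : ℕ) (C : Finset ℕ) :
    YP M t (fun i C => d * W i C) l C = d * YP M t W l C := by
  have hW : (fun i C => d * W i C) = fun (i : ℕ) (C : Finset ℕ) => d * W i C + 0 * W i C := by
    funext i C
    ring
  rw [hW]
  unfold YP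
  split_ifs with h
  · ring
  · rw [z0_lin]
    have h1 : ∑ i ∈ range (t + 1), ((l - i - 1).choose (t - i) : ℝ) / ((l - i).factorial : ℝ) *
        Up^[l - i] (fun C => d * W i C + 0 * W i C) C =
        d * (∑ i ∈ range (t + 1), ((l - i - 1).choose (t - i) : ℝ) / ((l - i).factorial : ℝ) *
          Up^[l - i] (W i) C) := by
      rw [mul_sum]
      refine sum_congr rfl fun i _ => ?_
      rw [Upi_lin d 0 (l - i) (W i) (W i)]
      ring
    rw [h1]
    ring

theorem abs_sg (B : Finset ℕ) (x : ℕ) : |sg B x| = 1 := by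
  unfold sg
  rw [abs_pow, abs_neg, abs_one, one_pow]

/-- the index set -/
def Ix (M t : ℕ) : Finset (Σ _ : ℕ, Finset ℕ) := (range (t + 1)).sigma fun i => Lv M i

theorem mem_Ix {M t i : ℕ} {C : Finset ℕ} : (⟨i, C⟩ : Σ _ : ℕ, Finset ℕ) ∈ Ix M t ↔
    i ≤ t ∧ C ∈ Lv M i := by
  unfold Ix
  rw [mem_sigma, mem_range]
  constructor
  · rintro ⟨h1, h2⟩
    exact ⟨Nat.le_of_lt_succ h1, h2⟩
  · rintro ⟨h1, h2⟩
    exact ⟨Nat.lt_succ_of_le h1, h2⟩

open Classical in
/-- the family given by its values on the index set -/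
noncomputable def xt (M t : ℕ) (W : ℕ → Finset ℕ → ℝ) (e : Ix M t → ℝ) (i : ℕ) (C : Finset ℕ) : ℝ :=
  if h : (⟨i, C⟩ : Σ _ : ℕ, Finset ℕ) ∈ Ix M t then W i C * e ⟨⟨i, C⟩, h⟩ else 0

theorem xt_of {M t : ℕ} {W : ℕ → Finset ℕ → ℝ} (e : Ix M t → ℝ) {i : ℕ} {C : Finset ℕ}
    (h : (⟨i, C⟩ : Σ _ : ℕ, Finset ℕ) ∈ Ix M t) : xt M t W e i C = W i C * e ⟨⟨i, C⟩, h⟩ := by
  unfold xt
  rw [dif_pos h]

/-- the map -/
noncomputable def Phm (M m t : ℕ) (W : ℕ → Finset ℕ → ℝ) (β : Finset ℕ → ℝ) (e : Ix M t → ℝ)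
    (p : Ix M t) : ℝ :=
  (β (insert (m + t + M - p.1.1) p.1.2) - ∑ x ∈ p.1.2, sg (insert (m + t + M - p.1.1) p.1.2) x *
    YL M t (xt M t W e) (m + t + M - x) ((insert (m + t + M - p.1.1) p.1.2).erase x)) /
      W p.1.1 p.1.2

/-- the beads of a shape of the lower level -/
theorem lv_le {M i : ℕ} {C : Finset ℕ} (h : C ∈ Lv M i) {x : ℕ} (hx : x ∈ C) : x < M + i :=
  (Lv_spec h).2.2.1 x hx

theorem top_notMem {M m t i : ℕ} {C : Finset ℕ} (htm : t ≤ m) (hi : i ≤ t) (h : C ∈ Lv M i) :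
    m + t + M - i ∉ C := fun hX => by
  have := lv_le h hX
  omega

theorem erase_mem {M m t i : ℕ} {C : Finset ℕ} (htm : t ≤ m) (hi : i ≤ t) (h : C ∈ Lv M i)
    {x : ℕ} (hx : x ∈ C) :
    (insert (m + t + M - i) C).erase x ∈ Lv M (m + t + M - x) := by
  have h1 := top_notMem htm hi h
  have h2 := lv_le h hx
  obtain ⟨h3, -, -, h4⟩ := Lv_spec h
  have hx' : x ∈ insert (m + t + M - i) C := mem_insert_of_mem hx
  have h5 := add_sum_erase (insert (m + t + M - i) C) (fun i => i) hx'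
  rw [sum_insert h1, h4] at h5
  have h6 : 0 < C.card := card_pos.2 ⟨x, hx⟩
  rw [mem_Lv_iff, card_erase_of_mem hx', card_insert_of_notMem h1]
  refine ⟨by omega, ?_⟩
  simp only at h5 ⊢
  omega

variable {M m t : ℕ} {W : ℕ → Finset ℕ → ℝ} {ν : ℝ} {β : Finset ℕ → ℝ}

theorem Phm_dist (hBD : Stmt_BD) (htm : t ≤ m) (_hν : 0 ≤ ν)
    (hW : ∀ i ≤ t, ∀ C ∈ Lv M i, 0 < W i C)
    (hc : ∀ i ≤ t, ∀ C ∈ Lv M i,
      ∑ x ∈ C, YP M t W (m + t + M - x) ((insert (m + t + M - i) C).erase x) ≤ ν * W i C)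
    (e f : Ix M t → ℝ) : dist (Phm M m t W β e) (Phm M m t W β f) ≤ ν * dist e f := by
  refine (dist_pi_le_iff (mul_nonneg _hν dist_nonneg)).2 fun p => ?_
  obtain ⟨⟨i, C⟩, hp⟩ := p
  obtain ⟨hi, hC⟩ := mem_Ix.1 hp
  set d := dist e f with hd
  have hd0 : 0 ≤ d := dist_nonneg
  set δ : ℕ → Finset ℕ → ℝ := fun i C => 1 * xt M t W e i C + (-1) * xt M t W f i C with hδ
  have h1 : ∀ i ≤ t, ∀ C ∈ Lv M i, |δ i C| ≤ d * W i C := by
    intro i hi C hC
    have hm : (⟨i, C⟩ : Σ _ : ℕ, Finset ℕ) ∈ Ix M t := mem_Ix.2 ⟨hi, hC⟩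
    have h2 : δ i C = W i C * (e ⟨⟨i, C⟩, hm⟩ - f ⟨⟨i, C⟩, hm⟩) := by
      simp only [hδ]
      rw [xt_of e hm, xt_of f hm]
      ring
    rw [h2, abs_mul, abs_of_pos (hW i hi C hC), mul_comm]
    refine mul_le_mul_of_nonneg_right ?_ (hW i hi C hC).le
    rw [← Real.dist_eq]
    exact dist_le_pi_dist e f _
  have h3 : ∀ l, ∀ D ∈ Lv M l, |YL M t (xt M t W e) l D - YL M t (xt M t W f) l D| ≤
      d * YP M t W l D := by
    intro l D hD
    have h4 := hBD.1 M t δ (fun i C => d * W i C) h1 l D hD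
    rw [YP_smul, hδ, YL_lin] at h4
    rwa [show YL M t (xt M t W e) l D - YL M t (xt M t W f) l D =
      1 * YL M t (xt M t W e) l D + (-1) * YL M t (xt M t W f) l D by ring]
  have hWp := hW i hi C hC
  rw [Real.dist_eq]
  unfold Phm
  simp only
  set X := m + t + M - i with hX
  have h5 : (β (insert X C) - ∑ x ∈ C, sg (insert X C) x *
      YL M t (xt M t W e) (m + t + M - x) ((insert X C).erase x)) / W i C -
      (β (insert X C) - ∑ x ∈ C, sg (insert X C) x *
      YL M t (xt M t W f) (m + t + M - x) ((insert X C).erase x)) / W i C =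
      -((∑ x ∈ C, sg (insert X C) x * (YL M t (xt M t W e) (m + t + M - x) ((insert X C).erase x) -
        YL M t (xt M t W f) (m + t + M - x) ((insert X C).erase x))) / W i C) := by
    have h6 : ∑ x ∈ C, sg (insert X C) x * (YL M t (xt M t W e) (m + t + M - x)
        ((insert X C).erase x) - YL M t (xt M t W f) (m + t + M - x) ((insert X C).erase x)) =
        ∑ x ∈ C, sg (insert X C) x * YL M t (xt M t W e) (m + t + M - x) ((insert X C).erase x) -
        ∑ x ∈ C, sg (insert X C) x * YL M t (xt M t W f) (m + t + M - x) ((insert X C).erase x) := by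
      rw [← sum_sub_distrib]
      exact sum_congr rfl fun x _ => by ring
    rw [h6]
    ring
  rw [h5, abs_neg, abs_div, abs_of_pos hWp, div_le_iff₀ hWp]
  calc |∑ x ∈ C, sg (insert X C) x * (YL M t (xt M t W e) (m + t + M - x) ((insert X C).erase x) -
        YL M t (xt M t W f) (m + t + M - x) ((insert X C).erase x))|
      ≤ ∑ x ∈ C, |sg (insert X C) x * (YL M t (xt M t W e) (m + t + M - x) ((insert X C).erase x) -
        YL M t (xt M t W f) (m + t + M - x) ((insert X C).erase x))| := abs_sum_le_sum_abs _ _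
    _ ≤ ∑ x ∈ C, d * YP M t W (m + t + M - x) ((insert X C).erase x) := by
        refine sum_le_sum fun x hx => ?_
        rw [abs_mul, abs_sg, one_mul]
        exact h3 _ _ (erase_mem htm hi hC hx)
    _ = d * ∑ x ∈ C, YP M t W (m + t + M - x) ((insert X C).erase x) := by rw [mul_sum]
    _ ≤ d * (ν * W i C) := mul_le_mul_of_nonneg_left (hc i hi C hC) hd0
    _ = ν * d * W i C := by ring

theorem Phm_zero (hW : ∀ i ≤ t, ∀ C ∈ Lv M i, 0 < W i C)
    (hβ : ∀ i ≤ t, ∀ C ∈ Lv M i, |β (insert (m + t + M - i) C)| ≤ W i C) :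
    dist (Phm M m t W β 0) 0 ≤ 1 := by
  refine (dist_pi_le_iff zero_le_one).2 fun p => ?_
  obtain ⟨⟨i, C⟩, hp⟩ := p
  obtain ⟨hi, hC⟩ := mem_Ix.1 hp
  have h0 : xt M t W (0 : Ix M t → ℝ) = fun i C => 0 * (0 : ℝ) + 0 * (0 : ℝ) := by
    funext i C
    unfold xt
    split_ifs <;> simp
  have h1 : ∀ l D, YL M t (xt M t W (0 : Ix M t → ℝ)) l D = 0 := by
    intro l D
    rw [h0]
    have := YL_lin 0 0 M t (fun _ _ => 0) (fun _ _ => 0) l D
    rw [this]
    ring
  have hWp := hW i hi C hC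
  rw [Real.dist_eq, Pi.zero_apply, sub_zero]
  unfold Phm
  simp only
  rw [sum_eq_zero fun x _ => by rw [h1, mul_zero], sub_zero, abs_div, abs_of_pos hWp,
    div_le_one hWp]
  exact hβ i hi C hC

end FIXAux

open FIXAux

theorem blk_FIX (hBD : Stmt_BD) : Stmt_FIX := by
  intro M m t W ν β htm hmM hν0 hν1 hW hc hβ
  have hcon : ContractingWith (⟨ν, hν0⟩ : NNReal) (Phm M m t W β) := by
    refine ⟨?_, LipschitzWith.of_dist_le_mul fun e f => Phm_dist hBD htm hν0 hW hc e f⟩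
    exact_mod_cast hν1
  set e := ContractingWith.fixedPoint (Phm M m t W β) hcon with he
  have hfix : Phm M m t W β e = e := hcon.fixedPoint_isFixedPt
  have hpos : 0 < 1 - ν := by linarith
  have hbd : dist e 0 ≤ 1 / (1 - ν) := by
    have h1 : dist e 0 ≤ ν * dist e 0 + 1 := by
      calc dist e 0 = dist (Phm M m t W β e) 0 := by rw [hfix]
        _ ≤ dist (Phm M m t W β e) (Phm M m t W β 0) + dist (Phm M m t W β 0) 0 :=
            dist_triangle _ _ _
        _ ≤ ν * dist e 0 + 1 := add_le_add (Phm_dist hBD htm hν0 hW hc e 0) (Phm_zero hW hβ)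
    rw [le_div_iff₀ hpos]
    linarith
  refine ⟨xt M t W e, fun i hi C hC => ?_, fun B hB hb => ?_⟩
  · have hm : (⟨i, C⟩ : Σ _ : ℕ, Finset ℕ) ∈ Ix M t := mem_Ix.2 ⟨hi, hC⟩
    have h2 : |e ⟨⟨i, C⟩, hm⟩| ≤ 1 / (1 - ν) := by
      refine le_trans ?_ hbd
      have := dist_le_pi_dist e 0 ⟨⟨i, C⟩, hm⟩
      rwa [Real.dist_eq, Pi.zero_apply, sub_zero] at this
    rw [xt_of e hm, abs_mul, abs_of_pos (hW i hi C hC)]
    calc W i C * |e ⟨⟨i, C⟩, hm⟩| ≤ W i C * (1 / (1 - ν)) :=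
          mul_le_mul_of_nonneg_left h2 (hW i hi C hC).le
      _ = W i C / (1 - ν) := by ring
  · unfold Bl at hb
    push Not at hb
    obtain ⟨X, hX, hX1⟩ := hb
    obtain ⟨h3, -, h4, h5⟩ := Lv_spec hB
    have hX2 := h4 X hX
    have h6 := add_sum_erase B (fun i => i) hX
    have hi : m + t + M - X ≤ t := by omega
    have hXi : m + t + M - (m + t + M - X) = X := by omega
    have hC : B.erase X ∈ Lv M (m + t + M - X) := by
      rw [mem_Lv_iff, card_erase_of_mem hX]
      refine ⟨by omega, ?_⟩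
      rw [sum_range_succ] at h5
      omega
    have hm : (⟨m + t + M - X, B.erase X⟩ : Σ _ : ℕ, Finset ℕ) ∈ Ix M t := mem_Ix.2 ⟨hi, hC⟩
    have hWp := hW _ hi _ hC
    have hsg : sg B X = 1 := by
      unfold sg
      rw [filter_eq_empty_iff.2, card_empty, pow_zero]
      intro y hy hXy
      have := lv_le hC (mem_erase.2 ⟨by omega, hy⟩)
      omega
    unfold ZZ
    rw [← add_sum_erase B _ hX, hsg, one_mul]
    have hY : YL M t (xt M t W e) (m + t + M - X) (B.erase X) =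
        xt M t W e (m + t + M - X) (B.erase X) := by
      unfold YL
      rw [if_pos hi]
    have h7 : xt M t W e (m + t + M - X) (B.erase X) = β B - ∑ x ∈ B.erase X, sg B x *
        YL M t (xt M t W e) (m + t + M - x) (B.erase x) := by
      rw [xt_of e hm]
      have h8 := congrFun hfix ⟨⟨m + t + M - X, B.erase X⟩, hm⟩
      unfold Phm at h8
      simp only at h8
      rw [hXi, insert_erase hX] at h8
      rw [← h8]
      field_simp
    rw [hY, h7]
    ring

end Pool.JM
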