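import Pool.Agent.Work.MP_46fa68_T.Inst

/-!
# MP_46fa68_co: the K = 0 lift of boundary values (definitions and statements)

`B` has `M + 1` beads, `B.erase x` has `M` beads.  For `B ∈ Lv (M + 1) n` and `x ∈ B` the set
`B.erase x` lies in `Lv M (n + M - x)`.

Every `Stmt_X` has its proof on paper in its comment; block X proves `theorem blk_X : Stmt_X`
(with the dependencies as hypotheses where indicated).
All statements were checked in exact arithmetic for small parameters.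
-/

set_option autoImplicit false

open Finset

namespace Pool.JM

/-- the sign `(-1)^(number of beads above x)` -/
def sg (B : Finset ℕ) (x : ℕ) : ℝ := (-1) ^ (B.filter (x < ·)).card

/-- the signed one-bead sum; `B` has `M + 1` beads and level `n` -/
noncomputable def ZZ (M n : ℕ) (Y : ℕ → Finset ℕ → ℝ) (B : Finset ℕ) : ℝ :=
  ∑ x ∈ B, sg B x * Y (n + M - x) (B.erase x)

/-- removing boxes, without weights -/
noncomputable def Up (y : Finset ℕ → ℝ) : Finset ℕ → ℝ := Fo (fun _ => 1) y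

/-- the scalar `∑_j C(t,j) (D^j E_j)(vacuum)` -/
noncomputable def z0 (M t : ℕ) (E : ℕ → Finset ℕ → ℝ) : ℝ :=
  ∑ j ∈ range (t + 1), (t.choose j : ℝ) * Dl^[j] (E j) (range M)

/-- the extension of the data `E_i`, `i ≤ t`, to all levels -/
noncomputable def YL (M t : ℕ) (E : ℕ → Finset ℕ → ℝ) (l : ℕ) (C : Finset ℕ) : ℝ :=
  if l ≤ t then E l C else
    (-1) ^ (l - t) * (∑ i ∈ range (t + 1),
        ((l - i - 1).choose (t - i) : ℝ) / ((l - i).factorial : ℝ) * Up^[l - i] (E i) C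
      - z0 M t E * ((l - 1).choose t : ℝ) * ex C)

/-- the same with absolute values -/
noncomputable def YP (M t : ℕ) (W : ℕ → Finset ℕ → ℝ) (l : ℕ) (C : Finset ℕ) : ℝ :=
  if l ≤ t then W l C else
    ∑ i ∈ range (t + 1),
        ((l - i - 1).choose (t - i) : ℝ) / ((l - i).factorial : ℝ) * Up^[l - i] (W i) C
      + z0 M t W * ((l - 1).choose t : ℝ) * ex C

/-- LEIB (one step of Leibniz).  Moving a bead `y` of `B` up gives `mv B y`; remove a bead `x'` of it.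
If `x' = y + 1`: level `n + 1 + M - (y + 1) = n + M - y`, set `B.erase y`, same sign: the second
term.  If `x' = x ≠ y`: level `(n + M - x) + 1`, set `mv (B.erase x) y`, same sign.  For fixed `x` the
movable beads of `B.erase x` are those `y ≠ x` of `B` with `y + 1 ∉ B`, and in addition `y = x - 1` if it
is in `B` (then `mv (B.erase x) (x-1) = B.erase (x-1)`).  The additional terms are
`∑_{x, x-1 ∈ B} sg B x * Y (n+1+M-x) (B.erase (x-1))`, and `sg B (x-1) = - sg B x`,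
`n + 1 + M - x = n + M - (x-1)`: they cancel the terms `y = x - 1`, `y + 1 ∈ B`, of the full sum
`∑_{y ∈ B} sg B y * Y (n+M-y) (B.erase y)` in the right hand side (needed: `x ≤ n + M` for `x ∈ B`). -/
def Stmt_LEIB : Prop := ∀ (M n : ℕ) (Y : ℕ → Finset ℕ → ℝ) (B : Finset ℕ), B ∈ Lv (M + 1) n →
  Dl (ZZ M (n + 1) Y) B = ZZ M n (fun l C => Dl (Y (l + 1)) C + Y l C) B

/-- ITER, from LEIB by induction on `t` (Pascal; `Dli_congr`; replace `Y` by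
`fun l C => Dl (Y (l+1)) C + Y l C`). -/
def Stmt_ITER : Prop := ∀ (M n t : ℕ) (Y : ℕ → Finset ℕ → ℝ) (B : Finset ℕ), B ∈ Lv (M + 1) n →
  Dl^[t] (ZZ M (n + t) Y) B =
    ZZ M n (fun l C => ∑ j ∈ range (t + 1), (t.choose j : ℝ) * Dl^[j] (Y (l + j)) C) B

/-- COMM: `comm_DF` with the weight `1` (`kap = 1` as `0 ∈ C`), induction on `k`; `mvd` keeps `0`. -/
def Stmt_COMM : Prop := ∀ (k : ℕ) (f : Finset ℕ → ℝ) (C : Finset ℕ), 0 ∈ C →
  Dl (Up^[k] f) C = Up^[k] (Dl f) C + k * Up^[k - 1] f C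

/-- STEP: for `0 ∈ C`, `D Y_{l+1} + Y_l` is the extension of `E'_i = D E_{i+1} + E_i` for `t - 1`
(same scalar `z0`, Pascal).  For `l > t`: COMM on `Up^[l+1-i] (E i)`, then
`(l+1-i) C(l-i,t-i)/(l+1-i)! - C(l-i-1,t-i)/(l-i)! = C(l-i-1,t-1-i)/(l-i)!` (zero for `i = t`) and the terms
`Up^[l+1-i] (D E_i)` (for `i = 0` it is zero on `Lv M l`: `E 0` lives on level `0`, so
`Up^[l+1] (Dl (E 0))` vanishes by `Foi_zero`) have the coefficient `C(l-i,t-i)/(l+1-i)!`, i.e. with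
`i = i' + 1` the coefficient `C(l-i'-1,t-1-i')/(l-i')!`; `Dl ex C = ex C`, `C(l,t) - C(l-1,t) = C(l-1,t-1)`.
For `l = t` the same with `Y_t = E_t`; for `l < t` it is the definition. -/
def Stmt_STEP : Prop := ∀ (M t l : ℕ) (E : ℕ → Finset ℕ → ℝ) (C : Finset ℕ), C ∈ Lv M l → 0 ∈ C →
  Dl (YL M (t + 1) E (l + 1)) C + YL M (t + 1) E l C =
    YL M t (fun i A => Dl (E (i + 1)) A + E i A) l C

/-- TB: from STEP by induction on `t` (at `t = 0`: `Up^[l] (E 0) C = E_0(vac) * l! * ex C` by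
`sum_rm_ex`, so `Y_l = 0` for `l ≥ 1`). -/
def Stmt_TB : Prop := ∀ (M t l : ℕ) (E : ℕ → Finset ℕ → ℝ) (C : Finset ℕ), C ∈ Lv M l →
  range (t + 1) ⊆ C → 1 ≤ l →
  ∑ j ∈ range (t + 1), (t.choose j : ℝ) * Dl^[j] (YL M t E (l + j)) C = 0

/-- BD: `|E_i| ≤ W_i` implies `|Y_l| ≤ YP_l`; and the crude bound of `YP`:
`Up^[l-i] ex = (l!/i!) ex` on level `l` (`sum_rm_ex`),
`C(l-i-1,t-i)/(l-i)! * l!/i! = C(l,t) C(t,i) (l-t)/(l-i)`, `z0 ≤ c * ∑_j C(t,j)/(m+t-j)! ≤ c 2^t/m!`. -/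
def Stmt_BD : Prop :=
  (∀ (M t : ℕ) (E W : ℕ → Finset ℕ → ℝ), (∀ i ≤ t, ∀ C ∈ Lv M i, |E i C| ≤ W i C) →
    ∀ l, ∀ C ∈ Lv M l, |YL M t E l C| ≤ YP M t W l C) ∧
  (∀ (M t m : ℕ) (W : ℕ → Finset ℕ → ℝ) (c : ℝ), t < M → 0 ≤ c →
    (∀ i ≤ t, ∀ C ∈ Lv M i, 0 ≤ W i C ∧ W i C ≤ c * ex C / ((m + t - i).factorial : ℝ)) →
    ∀ l, t < l → ∀ C ∈ Lv M l,
      YP M t W l C ≤ c * 2 ^ (t + 1) / (m.factorial : ℝ) * (l.choose t : ℝ) * ex C)

/-- the size of the error made by the beads `x ≤ t` -/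
noncomputable def deep (M m t : ℕ) : ℝ :=
  (t + 1) * 4 ^ (t + 1) * ((m + M + t).choose t : ℝ) / ((M - t).factorial : ℝ)

/-- EXACT: from ITER and TB, `Dl^[t] (ZZ (YL E)) B = ∑_x sg * T_{m+M-x} (B.erase x)`.  If `x > t` then
`range (t+1) ⊆ B.erase x` (as `B ⊇ range (M+1-m)`), and `m + M - x ≥ 1` because `B` is below the wall
(`x < M + m`): the term is zero.  If `x ≤ t`: `|T_l(C)| ≤ ∑_j C(t,j) Dl^[j] YP_{l+j} (C)`, `Dl ex ≤ ex`
(always), BD, `ex (B.erase x) = ex B * x! / ∏_{y ∈ B.erase x} |x - y| ≤ ex B / (M - x)!`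
(the `x` beads below `x` are `0..x-1`, product `x!`; the `M - x` beads above are distinct). -/
def Stmt_EXACT : Prop := ∀ (M m t : ℕ) (E : ℕ → Finset ℕ → ℝ) (c : ℝ), 1 ≤ m → m + t < M → 0 ≤ c →
  (∀ i ≤ t, ∀ C ∈ Lv M i, |E i C| ≤ c * ex C / ((m + t - i).factorial : ℝ)) →
  ∀ B ∈ Lv (M + 1) m, Bl m (M + 1) B →
    |Dl^[t] (ZZ M (m + t) (YL M t E)) B| ≤ c * deep M m t * ex B

/-- FIX (contraction).  The shapes above the wall on level `m + t` are exactly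
`insert (m+t+M-i) C`, `i ≤ t`, `C ∈ Lv M i` (`t ≤ m`).  On the finite dimensional space of the families
`(E_i)_{i ≤ t}` on `Lv M i` the map `E ↦ β - ∑_{x ∈ C} sg * YL E (m+t+M-x) ((insert _ C).erase x)` is a
contraction with the constant `ν` for the norm `sup |E_i| / W_i` (BD, linearity of `YL` in `E`), and maps
`|E| ≤ W/(1-ν)` to itself if `|β| ≤ W`.  Fixed point = `E` with `ZZ (YL E) = β` on these shapes. -/
def Stmt_FIX : Prop := ∀ (M m t : ℕ) (W : ℕ → Finset ℕ → ℝ) (ν : ℝ) (β : Finset ℕ → ℝ),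
  t ≤ m → m + t < M → 0 ≤ ν → ν < 1 → (∀ i ≤ t, ∀ C ∈ Lv M i, 0 < W i C) →
  (∀ i ≤ t, ∀ C ∈ Lv M i,
    ∑ x ∈ C, YP M t W (m + t + M - x) ((insert (m + t + M - i) C).erase x) ≤ ν * W i C) →
  (∀ i ≤ t, ∀ C ∈ Lv M i, |β (insert (m + t + M - i) C)| ≤ W i C) →
  ∃ E : ℕ → Finset ℕ → ℝ, (∀ i ≤ t, ∀ C ∈ Lv M i, |E i C| ≤ W i C / (1 - ν)) ∧
    ∀ B ∈ Lv (M + 1) (m + t), ¬ Bl m (M + 1) B → ZZ M (m + t) (YL M t E) B = β B

/-- LIFT, the final theorem: from FIX, EXACT, BD.  `v = ZZ (YL E)`. -/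
def Stmt_LIFT : Prop := ∀ (M m t : ℕ) (W : ℕ → Finset ℕ → ℝ) (ν c : ℝ) (β : Finset ℕ → ℝ),
  1 ≤ m → t ≤ m → m + t < M → 0 ≤ ν → ν < 1 → 0 ≤ c →
  (∀ i ≤ t, ∀ C ∈ Lv M i, 0 < W i C ∧ W i C ≤ c * ex C / ((m + t - i).factorial : ℝ)) →
  (∀ i ≤ t, ∀ C ∈ Lv M i,
    ∑ x ∈ C, YP M t W (m + t + M - x) ((insert (m + t + M - i) C).erase x) ≤ ν * W i C) →
  (∀ i ≤ t, ∀ C ∈ Lv M i, |β (insert (m + t + M - i) C)| ≤ W i C) →
  ∃ v : Finset ℕ → ℝ,
    (∀ B ∈ Lv (M + 1) (m + t), ¬ Bl m (M + 1) B → v B = β B) ∧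
    (∀ B ∈ Lv (M + 1) (m + t), |v B| ≤ (∑ x ∈ B, YP M t W (m + t + M - x) (B.erase x)) / (1 - ν)) ∧
    (∀ B ∈ Lv (M + 1) m, Bl m (M + 1) B → |Dl^[t] v B| ≤ c / (1 - ν) * deep M m t * ex B)

end Pool.JM
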