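import Pool.Agent.Work.MP_46fa68_h56.LiftDefs

set_option autoImplicit false

open Finset

namespace Pool.JM

namespace STEPAux

theorem Up_add (f g : Finset ℕ → ℝ) : Up (fun C => f C + g C) = fun C => Up f C + Up g C := by
  funext C
  unfold Up Fo
  rw [← sum_add_distrib]
  exact sum_congr rfl fun x _ => by ring

theorem Upi_add (k : ℕ) (f g : Finset ℕ → ℝ) :
    Up^[k] (fun C => f C + g C) = fun C => Up^[k] f C + Up^[k] g C := by
  induction k with
  | zero => rfl
  | succ k ih => rw [Function.iterate_succ_apply', ih, Up_add, Function.iterate_succ_apply',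
      Function.iterate_succ_apply']

theorem Dli_add (k : ℕ) (f g : Finset ℕ → ℝ) :
    Dl^[k] (fun C => f C + g C) = fun C => Dl^[k] f C + Dl^[k] g C := by
  induction k with
  | zero => rfl
  | succ k ih =>
    rw [Function.iterate_succ_apply', ih, Function.iterate_succ_apply',
      Function.iterate_succ_apply']
    funext C
    exact Dl_add _ _ _

theorem Dl_sub (f g : Finset ℕ → ℝ) (B : Finset ℕ) :
    Dl (fun C => f C - g C) B = Dl f B - Dl g B := by
  unfold Dl
  rw [sum_sub_distrib]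

theorem z0_step (M t : ℕ) (E : ℕ → Finset ℕ → ℝ) :
    z0 M t (fun i A => Dl (E (i + 1)) A + E i A) = z0 M (t + 1) E := by
  unfold z0
  have h1 : ∀ j ∈ range (t + 1), (t.choose j : ℝ) *
      Dl^[j] (fun A => Dl (E (j + 1)) A + E j A) (range M) =
      (t.choose j : ℝ) * Dl^[j + 1] (E (j + 1)) (range M) +
        (t.choose j : ℝ) * Dl^[j] (E j) (range M) := by
    intro j _
    rw [Dli_add j (Dl (E (j + 1))) (E j), Function.iterate_succ_apply]
    ring
  rw [sum_congr rfl h1, sum_add_distrib, sum_range_succ' (fun j => ((t + 1).choose j : ℝ) *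
    Dl^[j] (E j) (range M)), sum_range_succ' (fun j => (t.choose j : ℝ) *
    Dl^[j] (E j) (range M))]
  have h2 : ∑ k ∈ range (t + 1), ((t + 1).choose (k + 1) : ℝ) * Dl^[k + 1] (E (k + 1)) (range M) =
      ∑ k ∈ range (t + 1), (t.choose k : ℝ) * Dl^[k + 1] (E (k + 1)) (range M) +
        ∑ k ∈ range (t + 1), (t.choose (k + 1) : ℝ) * Dl^[k + 1] (E (k + 1)) (range M) := by
    rw [← sum_add_distrib]
    refine sum_congr rfl fun k _ => ?_
    rw [Nat.choose_succ_succ]
    push_cast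
    ring
  rw [h2, sum_range_succ (fun k => (t.choose (k + 1) : ℝ) * Dl^[k + 1] (E (k + 1)) (range M)),
    Nat.choose_eq_zero_of_lt (Nat.lt_succ_self t)]
  simp only [Nat.choose_zero_right]
  push_cast
  ring

/-- the coefficients -/
noncomputable def cf (T l i : ℕ) : ℝ := ((l - i - 1).choose (T - i) : ℝ) / ((l - i).factorial : ℝ)

/-- the formula for `YL` -/
noncomputable def GY (M t : ℕ) (E : ℕ → Finset ℕ → ℝ) (l : ℕ) (C : Finset ℕ) : ℝ :=
    (-1) ^ (l - t) * (∑ i ∈ range (t + 1), cf t l i * Up^[l - i] (E i) C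
      - z0 M t E * ((l - 1).choose t : ℝ) * ex C)

theorem YL_gt {M t l : ℕ} (h : t < l) (E : ℕ → Finset ℕ → ℝ) : YL M t E l = GY M t E l := by
  funext C
  unfold YL GY cf
  rw [if_neg (by omega)]

theorem YL_ge {M t l : ℕ} (h : t + 1 ≤ l) (E : ℕ → Finset ℕ → ℝ) (C : Finset ℕ) :
    YL M (t + 1) E l C = GY M (t + 1) E l C := by
  rcases Nat.lt_or_eq_of_le h with h | h
  · rw [YL_gt h]
  · subst h
    unfold YL GY cf
    rw [if_pos le_rfl, sum_range_succ, sum_eq_zero]
    · simp
    · intro i hi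
      have := mem_range.1 hi
      rw [Nat.choose_eq_zero_of_lt (by omega)]
      simp

theorem cf_lt {t l i : ℕ} (hi : i ≤ t) (hl : t + 1 ≤ l) :
    cf (t + 1) (l + 1) i * ((l + 1 - i : ℕ) : ℝ) - cf (t + 1) l i = cf t l i := by
  unfold cf
  obtain ⟨d, rfl⟩ : ∃ d, t = i + d := ⟨t - i, by omega⟩
  obtain ⟨e, rfl⟩ : ∃ e, l = i + d + 1 + e := ⟨l - (i + d + 1), by omega⟩
  rw [show i + d + 1 + e + 1 - i - 1 = (d + e) + 1 by omega, show i + d + 1 - i = d + 1 by omega,
    show i + d + 1 + e + 1 - i = (d + e + 1) + 1 by omega,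
    show i + d + 1 + e - i - 1 = d + e by omega, show i + d + 1 + e - i = d + e + 1 by omega,
    show i + d - i = d by omega, Nat.choose_succ_succ, Nat.factorial_succ (d + e + 1)]
  have h1 : ((d + e + 1).factorial : ℝ) ≠ 0 := by exact_mod_cast Nat.factorial_ne_zero _
  have h2 : (((d + e + 1 + 1 : ℕ)) : ℝ) ≠ 0 := by positivity
  push_cast at h2 ⊢
  field_simp
  ring

theorem cf_eq {T l : ℕ} (hl : T ≤ l) :
    cf T (l + 1) T * ((l + 1 - T : ℕ) : ℝ) - cf T l T = 0 := by
  unfold cf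
  rw [Nat.sub_self, Nat.choose_zero_right, Nat.choose_zero_right]
  obtain ⟨e, rfl⟩ : ∃ e, l = T + e := ⟨l - T, by omega⟩
  rw [show T + e + 1 - T = e + 1 by omega, show T + e - T = e by omega, Nat.factorial_succ]
  have h1 : (e.factorial : ℝ) ≠ 0 := by exact_mod_cast Nat.factorial_ne_zero _
  have h2 : (((e + 1 : ℕ)) : ℝ) ≠ 0 := by positivity
  push_cast at h2 ⊢
  field_simp
  ring

theorem cf_succ {t l i : ℕ} : cf (t + 1) (l + 1) (i + 1) = cf t l i := by
  unfold cf
  rw [show l + 1 - (i + 1) = l - i by omega, show t + 1 - (i + 1) = t - i by omega]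

theorem Dl_GY (M T : ℕ) (E : ℕ → Finset ℕ → ℝ) (l : ℕ) (C : Finset ℕ) :
    Dl (GY M T E l) C = (-1) ^ (l - T) * (∑ i ∈ range (T + 1), cf T l i * Dl (Up^[l - i] (E i)) C
      - z0 M T E * ((l - 1).choose T : ℝ) * Dl ex C) := by
  have h : GY M T E l = fun C => (-1) ^ (l - T) * ((∑ i ∈ range (T + 1), cf T l i *
      Up^[l - i] (E i) C) - z0 M T E * ((l - 1).choose T : ℝ) * ex C) := rfl
  rw [h, Dl_smul, Dl_sub, Dl_smul, Dl_sum]
  congr 2
  exact sum_congr rfl fun i _ => Dl_smul _ _ _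

end STEPAux

open STEPAux

theorem blk_STEP (h : Stmt_COMM) : Stmt_STEP := by
  intro M t l E C hC h0
  rcases Nat.lt_or_ge l (t + 1) with hl | hl
  · have e1 : YL M (t + 1) E (l + 1) = E (l + 1) := by
      funext A
      unfold YL
      rw [if_pos (by omega)]
    rw [e1]
    unfold YL
    rw [if_pos (by omega), if_pos (by omega)]
  · rw [YL_ge hl, YL_gt (show t + 1 < l + 1 by omega), YL_gt (show t < l by omega), Dl_GY,
      Dl_ex h0]
    unfold GY
    rw [z0_step]
    have hs1 : ((-1 : ℝ)) ^ (l + 1 - (t + 1)) = (-1) ^ (l - t) := by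
      rw [show l + 1 - (t + 1) = l - t by omega]
    have hs2 : ((-1 : ℝ)) ^ (l - t) = -(-1) ^ (l - (t + 1)) := by
      rw [show l - t = (l - (t + 1)) + 1 by omega, pow_succ]
      ring
    rw [hs1, hs2]
    have h1 : ∑ i ∈ range (t + 1 + 1), cf (t + 1) (l + 1) i * Dl (Up^[l + 1 - i] (E i)) C =
        ∑ i ∈ range (t + 1), cf t l i * Up^[l - i] (Dl (E (i + 1))) C +
        ∑ i ∈ range (t + 1 + 1), cf (t + 1) (l + 1) i * ((l + 1 - i : ℕ) : ℝ) *
          Up^[l - i] (E i) C := by
      have e1 : ∀ i ∈ range (t + 1 + 1), cf (t + 1) (l + 1) i * Dl (Up^[l + 1 - i] (E i)) C =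
          cf (t + 1) (l + 1) i * Up^[l + 1 - i] (Dl (E i)) C +
          cf (t + 1) (l + 1) i * ((l + 1 - i : ℕ) : ℝ) * Up^[l - i] (E i) C := by
        intro i hi
        have := mem_range.1 hi
        rw [h (l + 1 - i) (E i) C h0, show l + 1 - i - 1 = l - i by omega]
        ring
      rw [sum_congr rfl e1, sum_add_distrib]
      congr 1
      rw [sum_range_succ']
      have hU : Up = Fo (fun _ => 1) := rfl
      have e2 : Up^[l + 1 - 0] (Dl (E 0)) C = 0 := by
        rw [hU]
        exact Foi_zero hC (Nat.lt_succ_self l)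
      rw [e2, mul_zero, add_zero]
      refine sum_congr rfl fun i _ => ?_
      rw [cf_succ, show l + 1 - (i + 1) = l - i by omega]
    have h2 : ∑ i ∈ range (t + 1 + 1), cf (t + 1) (l + 1) i * ((l + 1 - i : ℕ) : ℝ) *
          Up^[l - i] (E i) C - ∑ i ∈ range (t + 1 + 1), cf (t + 1) l i * Up^[l - i] (E i) C =
        ∑ i ∈ range (t + 1), cf t l i * Up^[l - i] (E i) C := by
      rw [← sum_sub_distrib, sum_range_succ, ← sub_mul, cf_eq hl, zero_mul, add_zero]
      refine sum_congr rfl fun i hi => ?_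
      have := mem_range.1 hi
      rw [← sub_mul, cf_lt (by omega) hl]
    have h3 : ∑ i ∈ range (t + 1), cf t l i * Up^[l - i] (fun A => Dl (E (i + 1)) A + E i A) C =
        ∑ i ∈ range (t + 1), cf t l i * Up^[l - i] (Dl (E (i + 1))) C +
        ∑ i ∈ range (t + 1), cf t l i * Up^[l - i] (E i) C := by
      rw [← sum_add_distrib]
      refine sum_congr rfl fun i _ => ?_
      rw [Upi_add (l - i) (Dl (E (i + 1))) (E i)]
      ring
    have h4 : ((l + 1 - 1).choose (t + 1) : ℝ) - ((l - 1).choose (t + 1) : ℝ) =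
        ((l - 1).choose t : ℝ) := by
      rw [show l + 1 - 1 = (l - 1) + 1 by omega, Nat.choose_succ_succ]
      push_cast
      ring
    rw [h1, h3, ← h2]
    linear_combination (z0 M (t + 1) E * ex C * (-1) ^ (l - (t + 1))) * h4

end Pool.JM
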